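import Mathlib

/-!
# Condition (H) is not inherited by restrictions of IE-operators

We construct an IE-operator `f` on a countable set `S` which satisfies (C) and (H), and a subset
`X` of `S` such that the restriction `f_X` does not satisfy (H).
-/

namespace Pool.Agent.Results.MP_b124ce_co.RestrictionH

/-- Operators: (cl1) and (cl2). -/
structure IsOperator {S : Type} (f : Set S → Set S) : Prop where
  cl1 : ∀ X, X ⊆ f X
  cl2 : ∀ X Y, X ⊆ Y → f X ⊆ f Y

/-- IE-operators: operators satisfying (cl3) and (cl4'). -/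
structure IsIEOperator {S : Type} (f : Set S → Set S) : Prop extends IsOperator f where
  cl3 : ∀ X, f (f X) = f X
  cl4' : ∀ X Y : Set S, ∀ p : S, p ∈ f Y \ f (Y \ X) → ∃ x ∈ X, x ∈ f ((Y \ {x}) ∪ {p})

/-- `X` is independent. -/
def Indep {S : Type} (f : Set S → Set S) (X : Set S) : Prop := ∀ x ∈ X, x ∉ f (X \ {x})

/-- `X` is spanning. -/
def Spanning {S : Type} (f : Set S → Set S) (X : Set S) : Prop := f X = Set.univ

/-- Condition (C). -/
def CondC {S : Type} (f : Set S → Set S) : Prop :=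
  ∀ (Y : Set S) (p : S), p ∈ f Y →
    ∃ U : Set S, Minimal (fun U => U ⊆ Y ∧ p ∈ f U) U ∧ Indep f U

/-- Condition (H). -/
def CondH {S : Type} (f : Set S → Set S) : Prop :=
  ∀ (Y : Set S) (p : S), p ∉ f Y →
    ∃ V : Set S, Maximal (fun V => Y ⊆ V ∧ p ∉ f V) V ∧ Spanning f (V ∪ {p})

/-- The restriction `f_X : 2^X → 2^X`, `f_X (Y) = f (Y) ∩ X`, as an operator on the type of
elements of `X`. -/
def restrict {S : Type} (f : Set S → Set S) (X : Set S) : Set X → Set X :=
  fun Y => Subtype.val ⁻¹' (f (Subtype.val '' Y))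

/-! ### Finitely supported permutations and exchange-closed antichains -/

/-- Finitely supported permutations. -/
def FinSupp {S : Type} (σ : Equiv.Perm S) : Prop := {x | σ x ≠ x}.Finite

theorem FinSupp.one {S : Type} : FinSupp (1 : Equiv.Perm S) := by
  simp [FinSupp]

theorem FinSupp.mul {S : Type} {σ τ : Equiv.Perm S} (h1 : FinSupp σ) (h2 : FinSupp τ) :
    FinSupp (σ * τ) := by
  refine (h1.union h2).subset ?_
  intro x hx
  by_contra h
  simp only [Set.mem_union, Set.mem_ofPred_eq, not_or, not_not] at h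
  apply hx
  rw [Equiv.Perm.mul_apply, h.2, h.1]

theorem FinSupp.inv {S : Type} {σ : Equiv.Perm S} (h : FinSupp σ) : FinSupp σ⁻¹ := by
  refine h.subset ?_
  intro x hx hx'
  apply hx
  rw [Equiv.Perm.inv_eq_iff_eq]
  exact hx'.symm

theorem FinSupp.swap {S : Type} [DecidableEq S] (a b : S) : FinSupp (Equiv.swap a b) := by
  refine (Set.toFinite {a, b}).subset ?_
  intro x hx
  by_contra h
  simp only [Set.mem_insert_iff, Set.mem_singleton_iff, not_or] at h
  exact hx (Equiv.swap_apply_of_ne_of_ne h.1 h.2)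

theorem image_mul {S : Type} (σ τ : Equiv.Perm S) (X : Set S) : (σ * τ) '' X = σ '' (τ '' X) := by
  rw [Set.image_image]
  rfl

theorem subset_inv_image {S : Type} (σ : Equiv.Perm S) {X Y : Set S} (h : σ '' X ⊆ Y) :
    X ⊆ ⇑(σ⁻¹) '' Y := by
  intro x hx
  exact ⟨σ x, h ⟨x, hx, rfl⟩, by simp⟩

theorem inv_image_subset {S : Type} (σ : Equiv.Perm S) {X Y : Set S} (h : X ⊆ σ '' Y) :
    ⇑(σ⁻¹) '' X ⊆ Y := by
  rintro _ ⟨x, hx, rfl⟩
  obtain ⟨y, hy, rfl⟩ := h hx
  simpa using hy

theorem image_inv_image {S : Type} (σ : Equiv.Perm S) (X : Set S) : σ '' (⇑(σ⁻¹) '' X) = X := by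
  rw [← image_mul]
  simp

/-- A finitely supported permutation cannot map a set onto a proper subset of it. -/
theorem image_eq_of_subset {S : Type} {ρ : Equiv.Perm S} (hρ : FinSupp ρ) {Z : Set S}
    (h : ρ '' Z ⊆ Z) : ρ '' Z = Z := by
  apply Set.Subset.antisymm h
  have hfin : (Z ∩ {x | ρ x ≠ x}).Finite := hρ.subset Set.inter_subset_right
  have hsub : ρ '' (Z ∩ {x | ρ x ≠ x}) ⊆ Z ∩ {x | ρ x ≠ x} := by
    rintro _ ⟨x, ⟨hx1, hx2⟩, rfl⟩
    refine ⟨h ⟨x, hx1, rfl⟩, fun h' => hx2 (ρ.injective h')⟩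
  have heq : ρ '' (Z ∩ {x | ρ x ≠ x}) = Z ∩ {x | ρ x ≠ x} := by
    apply Set.eq_of_subset_of_ncard_le hsub _ hfin
    rw [Set.ncard_image_of_injective _ ρ.injective]
  intro z hz
  by_cases hz' : ρ z = z
  · exact ⟨z, hz, hz'⟩
  · have : z ∈ ρ '' (Z ∩ {x | ρ x ≠ x}) := by
      rw [heq]
      exact ⟨hz, hz'⟩
    obtain ⟨w, hw, rfl⟩ := this
    exact ⟨w, hw.1, rfl⟩

/-- Families of sets closed under finite exchanges in which no member contains another. -/
def Good {S : Type} (F : Set (Set S)) : Prop :=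
  (∀ B ∈ F, ∀ σ : Equiv.Perm S, FinSupp σ → σ '' B ∈ F) ∧ ∀ A ∈ F, ∀ B ∈ F, A ⊆ B → A = B

theorem exists_maximal_good {S : Type} (F₀ : Set (Set S)) (h₀ : Good F₀) :
    ∃ F, F₀ ⊆ F ∧ Maximal (fun F => Good F) F := by
  refine zorn_subset_nonempty {F : Set (Set S) | Good F} ?_ F₀ h₀
  intro c hc hchain hne
  refine ⟨⋃₀ c, ⟨?_, ?_⟩, fun s hs => Set.subset_sUnion_of_mem hs⟩
  · rintro B ⟨F, hF, hB⟩ σ hσ
    exact ⟨F, hF, (hc hF).1 B hB σ hσ⟩
  · rintro A ⟨F, hF, hA⟩ B ⟨F', hF', hB⟩ hAB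
    rcases hchain.total hF hF' with h | h
    · exact (hc hF').2 A (h hA) B hB hAB
    · exact (hc hF).2 A hA B (h hB) hAB

/-- The dichotomy for maximal exchange-closed antichains. -/
theorem dichotomy {S : Type} {F : Set (Set S)} (hF : Maximal (fun F => Good F) F) (Y : Set S)
    (hY : ∀ B ∈ F, ¬ B ⊆ Y) (p : S) : ∃ B ∈ F, Y ∪ {p} ⊆ B := by
  classical
  by_contra hcon
  push Not at hcon
  obtain ⟨hinv, hanti⟩ := hF.prop
  have hpZ : p ∈ Y ∪ {p} := Or.inr rfl
  have key : Good (F ∪ {B | ∃ σ : Equiv.Perm S, FinSupp σ ∧ B = σ '' (Y ∪ {p})}) := by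
    constructor
    · rintro B (hB | ⟨τ, hτ, rfl⟩) σ hσ
      · exact Or.inl (hinv B hB σ hσ)
      · exact Or.inr ⟨σ * τ, hσ.mul hτ, (image_mul σ τ _).symm⟩
    · rintro A (hA | ⟨σ, hσ, rfl⟩) B (hB | ⟨τ, hτ, rfl⟩) hAB
      · exact hanti A hA B hB hAB
      · exfalso
        have h1 : ⇑(τ⁻¹) '' A ∈ F := hinv A hA _ hτ.inv
        have h2 : ⇑(τ⁻¹) '' A ⊆ Y ∪ {p} := inv_image_subset τ hAB
        generalize ⇑(τ⁻¹) '' A = B' at h1 h2
        by_cases hpB : p ∈ B'
        · by_cases hall : Y ∪ {p} ⊆ B'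
          · exact hcon B' h1 hall
          · rw [Set.not_subset] at hall
            obtain ⟨z, hz, hzB⟩ := hall
            have hzp : z ≠ p := fun h => hzB (h ▸ hpB)
            have hzY : z ∈ Y := by
              rcases hz with hz | hz
              · exact hz
              · exact absurd hz hzp
            refine hY (Equiv.swap p z '' B') (hinv B' h1 _ (FinSupp.swap p z)) ?_
            rintro _ ⟨b, hb, rfl⟩
            by_cases hbp : b = p
            · rw [hbp, Equiv.swap_apply_left]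
              exact hzY
            · have hbz : b ≠ z := fun h => hzB (h ▸ hb)
              rw [Equiv.swap_apply_of_ne_of_ne hbp hbz]
              rcases h2 hb with h | h
              · exact h
              · exact absurd h hbp
        · refine hY B' h1 ?_
          intro b hb
          rcases h2 hb with h | h
          · exact h
          · exact absurd (h ▸ hb) hpB
      · exfalso
        exact hcon (⇑(σ⁻¹) '' B) (hinv B hB _ hσ.inv) (subset_inv_image σ hAB)
      · have h1 : (τ⁻¹ * σ) '' (Y ∪ {p}) ⊆ Y ∪ {p} := by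
          rw [image_mul]
          exact inv_image_subset τ hAB
        have h2 := image_eq_of_subset (hτ.inv.mul hσ) h1
        rw [image_mul] at h2
        calc σ '' (Y ∪ {p}) = τ '' (⇑(τ⁻¹) '' (σ '' (Y ∪ {p}))) := (image_inv_image τ _).symm
          _ = τ '' (Y ∪ {p}) := by rw [h2]
  have hle := hF.le_of_ge key Set.subset_union_left
  have hmem : Y ∪ {p} ∈ F := hle (Or.inr ⟨1, FinSupp.one, by simp⟩)
  exact hcon _ hmem subset_rfl

/-! ### The operator of an exchange-closed antichain -/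

/-- `Y` contains a member of the family. -/
def Large {S : Type} (F : Set (Set S)) (Y : Set S) : Prop := ∃ B ∈ F, B ⊆ Y

/-- The operator: `f Y = S` if `Y` contains a member of the family, and `f Y = Y` otherwise. -/
def op {S : Type} (F : Set (Set S)) (Y : Set S) : Set S := {x | x ∈ Y ∨ Large F Y}

theorem exchange {S : Type} {F : Set (Set S)} (hF : Good F) {B : Set S} (hB : B ∈ F) {x y : S}
    (hx : x ∈ B) (hy : y ∉ B) : (B \ {x}) ∪ {y} ∈ F := by
  classical
  have h := hF.1 B hB _ (FinSupp.swap x y)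
  convert h using 1
  ext z
  constructor
  · rintro (⟨hz, hzx⟩ | hz)
    · have hzy : z ≠ y := fun h => hy (h ▸ hz)
      exact ⟨z, hz, Equiv.swap_apply_of_ne_of_ne hzx hzy⟩
    · have hz' : z = y := hz
      exact ⟨x, hx, by rw [Equiv.swap_apply_left, hz']⟩
  · rintro ⟨w, hw, rfl⟩
    by_cases hwx : w = x
    · rw [hwx, Equiv.swap_apply_left]
      exact Or.inr rfl
    · have hwy : w ≠ y := fun h => hy (h ▸ hw)
      rw [Equiv.swap_apply_of_ne_of_ne hwx hwy]
      exact Or.inl ⟨hw, hwx⟩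

theorem op_ie {S : Type} {F : Set (Set S)} (hF : Good F) : IsIEOperator (op F) where
  cl1 X := fun x hx => Or.inl hx
  cl2 X Y hXY := by
    rintro x (hx | ⟨B, hB, hBX⟩)
    · exact Or.inl (hXY hx)
    · exact Or.inr ⟨B, hB, hBX.trans hXY⟩
  cl3 X := by
    apply Set.Subset.antisymm
    · rintro x (hx | ⟨B, hB, hBX⟩)
      · exact hx
      · by_cases h : Large F X
        · exact Or.inr h
        · have : op F X = X := by
            ext y
            simp [op, h]
          rw [this] at hBX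
          exact absurd ⟨B, hB, hBX⟩ h
    · exact fun x hx => Or.inl hx
  cl4' X Y p := by
    rintro ⟨hp1, hp2⟩
    have hn : ¬ Large F (Y \ X) := fun h => hp2 (Or.inr h)
    have hpn : p ∉ Y \ X := fun h => hp2 (Or.inl h)
    by_cases hpY : p ∈ Y
    · have hpX : p ∈ X := by
        by_contra h
        exact hpn ⟨hpY, h⟩
      exact ⟨p, hpX, Or.inl (Or.inr rfl)⟩
    · rcases hp1 with hp1 | ⟨B, hB, hBY⟩
      · exact absurd hp1 hpY
      · have : ∃ x ∈ B, x ∈ X := by
          by_contra hcon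
          push Not at hcon
          exact hn ⟨B, hB, fun b hb => ⟨hBY hb, hcon b hb⟩⟩
        obtain ⟨x, hxB, hxX⟩ := this
        refine ⟨x, hxX, Or.inr ⟨_, exchange hF hB hxB (fun h => hpY (hBY h)), ?_⟩⟩
        rintro z (⟨hz, hzx⟩ | hz)
        · exact Or.inl ⟨hBY hz, hzx⟩
        · exact Or.inr hz

theorem not_large_of_ssubset {S : Type} {F : Set (Set S)} (hF : Good F) {B U : Set S} (hB : B ∈ F)
    (hU : U ⊆ B) {x : S} (hx : x ∈ B) (hxU : x ∉ U) : ¬ Large F U := by
  rintro ⟨B', hB', hB'U⟩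
  have := hF.2 B' hB' B hB (hB'U.trans hU)
  rw [this] at hB'U
  exact hxU (hB'U hx)

theorem op_C {S : Type} {F : Set (Set S)} (hF : Good F) (hempty : ¬ Large F ∅) :
    CondC (op F) := by
  intro Y p hp
  by_cases hpY : p ∈ Y
  · refine ⟨{p}, ⟨⟨Set.singleton_subset_iff.mpr hpY, Or.inl rfl⟩, ?_⟩, ?_⟩
    · rintro U ⟨_, hU2⟩ hU3 x hx
      have hx' : x = p := hx
      rw [hx']
      rcases hU2 with h | ⟨B, hB, hBU⟩
      · exact h
      · by_contra hpU
        have hU0 : U ⊆ ∅ := by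
          intro u hu
          have : u = p := hU3 hu
          exact absurd (this ▸ hu) hpU
        exact hempty ⟨B, hB, hBU.trans hU0⟩
    · intro x hx
      have hx' : x = p := hx
      rw [hx', Set.sdiff_self]
      rintro (h | h)
      · exact h
      · exact hempty h
  · rcases hp with hp | ⟨B, hB, hBY⟩
    · exact absurd hp hpY
    · refine ⟨B, ⟨⟨hBY, Or.inr ⟨B, hB, subset_rfl⟩⟩, ?_⟩, ?_⟩
      · rintro U ⟨hU1, hU2⟩ hU3 x hx
        by_contra hxU
        rcases hU2 with h | h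
        · exact hpY (hU1 h)
        · exact not_large_of_ssubset hF hB hU3 hx hxU h
      · intro x hx
        rintro (h | h)
        · exact h.2 rfl
        · exact not_large_of_ssubset (U := B \ {x}) hF hB Set.sdiff_subset hx (fun h => h.2 rfl) h

theorem op_H {S : Type} {F : Set (Set S)} (hF : Maximal (fun F => Good F) F) :
    CondH (op F) := by
  intro Y p hp
  have hpY : p ∉ Y := fun h => hp (Or.inl h)
  have hY : ¬ Large F Y := fun h => hp (Or.inr h)
  obtain ⟨B, hB, hYB⟩ := dichotomy hF Y (fun B hB hBY => hY ⟨B, hB, hBY⟩) p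
  have hpB : p ∈ B := hYB (Or.inr rfl)
  refine ⟨B \ {p}, ⟨⟨?_, ?_⟩, ?_⟩, ?_⟩
  · intro y hy
    exact ⟨hYB (Or.inl hy), fun h => hpY (h ▸ hy)⟩
  · rintro (h | h)
    · exact h.2 rfl
    · exact not_large_of_ssubset (U := B \ {p}) hF.prop hB Set.sdiff_subset hpB (fun h => h.2 rfl) h
  · rintro V ⟨_, hV2⟩ hV3 x hx
    by_contra hxV
    have hpV : p ∉ V := fun h => hV2 (Or.inl h)
    have hxp : x ≠ p := fun h => hpV (h ▸ hx)
    have hxB : x ∉ B := fun h => hxV ⟨h, hxp⟩
    refine hV2 (Or.inr ⟨_, exchange hF.prop hB hpB hxB, ?_⟩)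
    rintro z (hz | hz)
    · exact hV3 hz
    · have : z = x := hz
      rw [this]
      exact hx
  · have : Large F (B \ {p} ∪ {p}) := by
      refine ⟨B, hB, ?_⟩
      intro b hb
      by_cases h : b = p
      · exact Or.inr h
      · exact Or.inl ⟨hb, h⟩
    exact Set.eq_univ_of_forall fun x => Or.inr this

theorem restrict_not_H {S : Type} {F : Set (Set S)} (hF : Good F) (X Y : Set S) (hYX : Y ⊆ X)
    (hX : Large F X) (hY : ¬ Large F Y) (p : S) (hpX : p ∈ X) (hpY : p ∉ Y)
    (hno : ∀ B ∈ F, Y ⊆ B → ¬ B ⊆ X) : ¬ CondH (restrict (op F) X) := by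
  intro hH
  have himY : Subtype.val '' (Subtype.val ⁻¹' Y : Set X) = Y := by
    rw [Subtype.image_preimage_coe]
    exact Set.inter_eq_right.mpr hYX
  obtain ⟨V, ⟨⟨hV1, hV2⟩, _⟩, hV4⟩ := hH (Subtype.val ⁻¹' Y) ⟨p, hpX⟩ (by
    show p ∉ op F (Subtype.val '' (Subtype.val ⁻¹' Y : Set X))
    rw [himY]
    rintro (h | h)
    · exact hpY h
    · exact hY h)
  have hV2' : p ∉ op F (Subtype.val '' V) := hV2
  have hpV : p ∉ (Subtype.val '' V : Set S) := fun h => hV2' (Or.inl h)
  have hVn : ¬ Large F (Subtype.val '' V) := fun h => hV2' (Or.inr h)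
  have hYV : Y ⊆ Subtype.val '' V := by
    intro y hy
    exact ⟨⟨y, hYX hy⟩, hV1 hy, rfl⟩
  have hVX : (Subtype.val '' V : Set S) ⊆ X := by
    rintro _ ⟨v, _, rfl⟩
    exact v.2
  have himg : (Subtype.val '' (V ∪ {⟨p, hpX⟩}) : Set S) = Subtype.val '' V ∪ {p} := by
    rw [Set.image_union, Set.image_singleton]
  have hL : Large F (Subtype.val '' V ∪ {p}) := by
    by_contra hcon
    have hsub : X ⊆ Subtype.val '' V ∪ {p} := by
      intro x hx
      have h1 : (⟨x, hx⟩ : X) ∈ restrict (op F) X (V ∪ {⟨p, hpX⟩}) := by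
        have h2 : restrict (op F) X (V ∪ {⟨p, hpX⟩}) = Set.univ := hV4
        rw [h2]
        trivial
      have h3 : x ∈ op F (Subtype.val '' (V ∪ {⟨p, hpX⟩})) := h1
      rw [himg] at h3
      rcases h3 with h3 | h3
      · exact h3
      · exact absurd h3 hcon
    obtain ⟨B, hB, hBX⟩ := hX
    exact hcon ⟨B, hB, hBX.trans hsub⟩
  obtain ⟨B, hB, hBV⟩ := hL
  generalize (Subtype.val '' V : Set S) = W at *
  have hpB : p ∈ B := by
    by_contra h
    refine hVn ⟨B, hB, ?_⟩
    intro b hb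
    rcases hBV hb with h' | h'
    · exact h'
    · exact absurd (h' ▸ hb) h
  have hWB : W ⊆ B := by
    intro w hw
    by_contra hwB
    refine hVn ⟨_, exchange hF hB hpB hwB, ?_⟩
    rintro z (⟨hz, hzp⟩ | hz)
    · rcases hBV hz with h' | h'
      · exact h'
      · exact absurd h' hzp
    · have : z = w := hz
      rw [this]
      exact hw
  refine hno B hB (hYV.trans hWB) ?_
  intro b hb
  rcases hBV hb with h' | h'
  · exact hVX h'
  · have : b = p := h'
    rw [this]
    exact hpX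

/-! ### The initial family on `ℕ × Fin 3` -/

/-- The ground set. -/
abbrev T : Type := ℕ × Fin 3

/-- The set `Q` of all points of level `1`. -/
def Q : Set T := {x | x.2 = 1}

/-- The set `A_N`: everything of level `0`, the points `(n, 1)` with `n ∈ N` and the points
`(n, 2)` with `n ∉ N`. -/
def A (N : Set ℕ) : Set T := {x | x.2 = 0 ∨ (x.2 = 1 ∧ x.1 ∈ N) ∨ (x.2 = 2 ∧ x.1 ∉ N)}

open Classical in
/-- Every column of `X` has exactly `c` points. -/
def ColCard (c : ℕ) (X : Set T) : Prop :=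
  ∀ n : ℕ, (Finset.univ.filter fun i : Fin 3 => (n, i) ∈ X).card = c

theorem colCard_Q : ColCard 1 Q := by
  classical
  intro n
  have : (Finset.univ.filter fun i : Fin 3 => (n, i) ∈ Q) = {1} := by
    ext i
    rw [Finset.mem_filter, Finset.mem_singleton]
    exact ⟨fun h => h.2, fun h => ⟨Finset.mem_univ _, h⟩⟩
  rw [this]
  rfl

theorem colCard_A (N : Set ℕ) : ColCard 2 (A N) := by
  classical
  intro n
  by_cases hn : n ∈ N
  · have : (Finset.univ.filter fun i : Fin 3 => (n, i) ∈ A N) = {0, 1} := by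
      ext i
      fin_cases i <;> simp [A, hn]
    rw [this]
    rfl
  · have : (Finset.univ.filter fun i : Fin 3 => (n, i) ∈ A N) = {0, 2} := by
      ext i
      fin_cases i <;> simp [A, hn]
    rw [this]
    rfl

theorem eq_of_colCard {c : ℕ} {X Y : Set T} (hX : ColCard c X) (hY : ColCard c Y)
    {ρ : Equiv.Perm T} (hρ : FinSupp ρ) (h : ρ '' X ⊆ Y) : ρ '' X = Y := by
  classical
  -- a finite set of columns containing the support
  let E : Finset ℕ := hρ.toFinset.image Prod.fst
  let D : Finset T := E ×ˢ Finset.univ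
  have hout : ∀ x : T, x ∉ D → ρ x = x := by
    intro x hx
    by_contra hne
    apply hx
    simp only [D, Finset.mem_product, Finset.mem_univ, and_true, E, Finset.mem_image]
    exact ⟨x, (Set.Finite.mem_toFinset hρ).mpr hne, rfl⟩
  have hin : ∀ x : T, x ∈ D → ρ x ∈ D := by
    intro x hx
    by_contra hne
    have h1 := hout _ hne
    have h2 := ρ.injective h1
    rw [h2] at hne
    exact hne hx
  have hcard : ∀ Z : Set T, ColCard c Z → (D.filter (· ∈ Z)).card = E.card * c := by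
    intro Z hZ
    rw [Finset.card_filter, Finset.sum_product]
    have h1 : ∀ n ∈ E, (∑ i : Fin 3, if (n, i) ∈ Z then 1 else 0) = c := by
      intro n _
      rw [← Finset.card_filter]
      exact hZ n
    rw [Finset.sum_congr rfl h1, Finset.sum_const, smul_eq_mul]
  have hsub : (D.filter (· ∈ X)).image ρ ⊆ D.filter (· ∈ Y) := by
    intro y hy
    obtain ⟨x, hx, rfl⟩ := Finset.mem_image.mp hy
    rw [Finset.mem_filter] at hx ⊢
    exact ⟨hin x hx.1, h ⟨x, hx.2, rfl⟩⟩
  have heq : (D.filter (· ∈ X)).image ρ = D.filter (· ∈ Y) := by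
    apply Finset.eq_of_subset_of_card_le hsub
    rw [Finset.card_image_of_injective _ ρ.injective, hcard X hX, hcard Y hY]
  apply Set.Subset.antisymm h
  intro y hy
  by_cases hyD : y ∈ D
  · have : y ∈ (D.filter (· ∈ X)).image ρ := by
      rw [heq]
      exact Finset.mem_filter.mpr ⟨hyD, hy⟩
    obtain ⟨x, hx, rfl⟩ := Finset.mem_image.mp this
    exact ⟨x, (Finset.mem_filter.mp hx).2, rfl⟩
  · obtain ⟨n, i⟩ := y
    have hn : n ∉ E := by
      intro hn
      exact hyD (Finset.mem_product.mpr ⟨hn, Finset.mem_univ _⟩)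
    have hoc : ∀ j : Fin 3, ρ (n, j) = (n, j) := by
      intro j
      apply hout
      intro hmem
      exact hn (Finset.mem_product.mp hmem).1
    have hcol : (Finset.univ.filter fun j : Fin 3 => (n, j) ∈ X) ⊆
        (Finset.univ.filter fun j : Fin 3 => (n, j) ∈ Y) := by
      intro j hj
      rw [Finset.mem_filter] at hj ⊢
      refine ⟨Finset.mem_univ _, ?_⟩
      have := h ⟨(n, j), hj.2, rfl⟩
      rwa [hoc] at this
    have hcol' := Finset.eq_of_subset_of_card_le hcol (by rw [hX n, hY n])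
    have hi : i ∈ (Finset.univ.filter fun j : Fin 3 => (n, j) ∈ X) := by
      rw [hcol']
      exact Finset.mem_filter.mpr ⟨Finset.mem_univ _, hy⟩
    exact ⟨(n, i), (Finset.mem_filter.mp hi).2, hoc i⟩

/-- The initial family. -/
def F₀ : Set (Set T) :=
  {B | ∃ σ : Equiv.Perm T, FinSupp σ ∧ (B = σ '' Q ∨ ∃ N : Set ℕ, Nᶜ.Infinite ∧ B = σ '' A N)}

theorem exists_fixed_column {ρ : Equiv.Perm T} (hρ : FinSupp ρ) :
    ∃ E : Finset ℕ, ∀ n ∉ E, ∀ i, ρ (n, i) = (n, i) := by
  classical
  refine ⟨hρ.toFinset.image Prod.fst, ?_⟩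
  intro n hn i
  by_contra hne
  apply hn
  rw [Finset.mem_image]
  exact ⟨(n, i), (Set.Finite.mem_toFinset hρ).mpr hne, rfl⟩

theorem not_Q_sub_A {N : Set ℕ} (hN : Nᶜ.Infinite) {ρ : Equiv.Perm T} (hρ : FinSupp ρ) :
    ¬ ρ '' Q ⊆ A N := by
  intro h
  obtain ⟨E, hE⟩ := exists_fixed_column hρ
  apply hN
  refine E.finite_toSet.subset ?_
  intro n hn
  by_contra hnE
  have h1 : ρ (n, 1) ∈ A N := h ⟨(n, 1), rfl, rfl⟩
  rw [hE n hnE] at h1
  simp only [A, Set.mem_ofPred_eq] at h1
  rcases h1 with h1 | h1 | h1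
  · exact absurd h1 (by decide)
  · exact hn h1.2
  · exact absurd h1.1 (by decide)

theorem not_A_sub_Q {N : Set ℕ} {ρ : Equiv.Perm T} (hρ : FinSupp ρ) :
    ¬ ρ '' A N ⊆ Q := by
  intro h
  obtain ⟨E, hE⟩ := exists_fixed_column hρ
  obtain ⟨n, hn⟩ := Infinite.exists_notMem_finset E
  have h1 : ρ (n, 0) ∈ Q := h ⟨(n, 0), Or.inl rfl, rfl⟩
  rw [hE n hn] at h1
  exact absurd h1 (by simp [Q])

theorem good_F₀ : Good F₀ := by
  constructor
  · rintro B ⟨σ, hσ, hB⟩ τ hτ
    refine ⟨τ * σ, hτ.mul hσ, ?_⟩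
    rcases hB with rfl | ⟨N, hN, rfl⟩
    · exact Or.inl (image_mul _ _ _).symm
    · exact Or.inr ⟨N, hN, (image_mul _ _ _).symm⟩
  · have aux : ∀ (c : ℕ) (X Y : Set T), ColCard c X → ColCard c Y → ∀ σ τ : Equiv.Perm T,
        FinSupp σ → FinSupp τ → σ '' X ⊆ τ '' Y → σ '' X = τ '' Y := by
      intro c X Y hX hY σ τ hσ hτ h
      have h1 : (τ⁻¹ * σ) '' X ⊆ Y := by
        rw [image_mul]
        exact inv_image_subset τ h
      have h2 := eq_of_colCard hX hY (hτ.inv.mul hσ) h1
      rw [image_mul] at h2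
      rw [← h2, image_inv_image]
    rintro _ ⟨σ, hσ, rfl | ⟨N, hN, rfl⟩⟩ _ ⟨τ, hτ, rfl | ⟨M, hM, rfl⟩⟩ h
    · exact aux 1 Q Q colCard_Q colCard_Q σ τ hσ hτ h
    · exfalso
      refine not_Q_sub_A hM (hτ.inv.mul hσ) ?_
      rw [image_mul]
      exact inv_image_subset τ h
    · exfalso
      refine not_A_sub_Q (N := N) (hτ.inv.mul hσ) ?_
      rw [image_mul]
      exact inv_image_subset τ h
    · exact aux 2 (A N) (A M) (colCard_A N) (colCard_A M) σ τ hσ hτ h

theorem A_mem {N : Set ℕ} (hN : Nᶜ.Infinite) : A N ∈ F₀ :=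
  ⟨1, FinSupp.one, Or.inr ⟨N, hN, by simp⟩⟩

theorem Q_mem : Q ∈ F₀ := ⟨1, FinSupp.one, Or.inl (by simp)⟩

/-- There are an IE-operator `f` on a countable set satisfying (C) and (H), and a subset `X` of the
ground set, such that the restriction `f_X` does not satisfy (H). -/
theorem result : ∃ (S : Type) (_ : Countable S) (f : Set S → Set S) (X : Set S),
    IsIEOperator f ∧ CondC f ∧ CondH f ∧ ¬ CondH (restrict f X) := by
  classical
  obtain ⟨F, hF₀, hF⟩ := exists_maximal_good F₀ good_F₀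
  have hA0 : A ∅ ∈ F := hF₀ (A_mem (by rw [Set.compl_empty]; exact Set.infinite_univ))
  have hQ : Q ∈ F := hF₀ Q_mem
  have hempty : ¬ Large F ∅ :=
    not_large_of_ssubset hF.prop hQ (Set.empty_subset _) (x := (0, 1)) rfl (by simp)
  refine ⟨T, inferInstance, op F, {x | x.2 = 0 ∨ x.2 = 1}, op_ie hF.prop, op_C hF.prop hempty,
    op_H hF, ?_⟩
  refine restrict_not_H hF.prop {x | x.2 = 0 ∨ x.2 = 1} {x | x.2 = 0} (fun x hx => Or.inl hx)
    ⟨Q, hQ, fun x hx => Or.inr hx⟩ ?_ (0, 1) (Or.inr rfl) (by simp) ?_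
  · refine not_large_of_ssubset hF.prop hA0 (fun x hx => Or.inl hx) (x := (0, 2)) ?_ (by simp)
    exact Or.inr (Or.inr ⟨rfl, by simp⟩)
  · intro B hB hYB hBX
    let N : Set ℕ := {n | (n, 1) ∈ B}
    have hBN : ∀ x : T, x ∈ B ↔ x.2 = 0 ∨ (x.2 = 1 ∧ x.1 ∈ N) := by
      rintro ⟨n, i⟩
      constructor
      · intro hx
        rcases hBX hx with h | h
        · exact Or.inl h
        · have hi : i = 1 := h
          subst hi
          exact Or.inr ⟨rfl, hx⟩
      · rintro (h | ⟨h, h'⟩)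
        · exact hYB h
        · have hi : i = 1 := h
          subst hi
          exact h'
    by_cases hN : Nᶜ.Infinite
    · -- `B` is a proper subset of `A N`
      have hsub : B ⊆ A N := by
        intro x hx
        rcases (hBN x).mp hx with h | h
        · exact Or.inl h
        · exact Or.inr (Or.inl h)
      have heq := hF.prop.2 B hB (A N) (hF₀ (A_mem hN)) hsub
      obtain ⟨n, hn⟩ := hN.nonempty
      have h1 : ((n, 2) : T) ∈ A N := Or.inr (Or.inr ⟨rfl, hn⟩)
      rw [← heq, hBN] at h1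
      rcases h1 with h1 | h1
      · exact absurd h1 (by simp)
      · exact absurd h1.1 (by simp)
    · -- a finite exchange moves `Q` properly into `B`
      have hfin : (Nᶜ : Set ℕ).Finite := Set.not_infinite.mp hN
      let g : T → T := fun x => if x.1 ∈ N then x else (x.1, Equiv.swap (0 : Fin 3) 1 x.2)
      have hgg : ∀ x, g (g x) = x := by
        rintro ⟨n, i⟩
        by_cases hn : n ∈ N
        · simp [g, hn]
        · simp [g, hn]
      let σ : Equiv.Perm T := ⟨g, g, hgg, hgg⟩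
      have hσ : FinSupp σ := by
        refine (hfin.prod (Set.finite_univ (α := Fin 3))).subset ?_
        rintro ⟨n, i⟩ hx
        refine ⟨?_, trivial⟩
        intro hn
        exact hx (if_pos hn)
      have hmem : σ '' Q ∈ F := hF.prop.1 Q hQ σ hσ
      have hsub : σ '' Q ⊆ B := by
        rintro _ ⟨⟨n, i⟩, hx, rfl⟩
        have hi : i = 1 := hx
        subst hi
        rw [hBN]
        by_cases hn : n ∈ N
        · have : σ (n, 1) = (n, 1) := if_pos hn
          rw [this]
          exact Or.inr ⟨rfl, hn⟩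
        · have : σ (n, 1) = (n, 0) := by
            show g (n, 1) = (n, 0)
            simp [g, hn]
          rw [this]
          exact Or.inl rfl
      have heq := hF.prop.2 _ hmem B hB hsub
      have hNinf : N.Nonempty := by
        by_contra h
        rw [Set.not_nonempty_iff_eq_empty] at h
        rw [h, Set.compl_empty] at hfin
        exact Set.infinite_univ hfin
      obtain ⟨n, hn⟩ := hNinf
      have h1 : ((n, 0) : T) ∈ B := (hBN _).mpr (Or.inl rfl)
      rw [← heq] at h1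
      obtain ⟨⟨m, i⟩, hx, hxe⟩ := h1
      have hi : i = 1 := hx
      subst hi
      have hxe' : g (m, 1) = (n, 0) := hxe
      by_cases hm : m ∈ N
      · simp [g, hm] at hxe'
      · simp only [g, hm, if_false, Prod.mk.injEq] at hxe'
        exact hm (hxe'.1 ▸ hn)

end Pool.Agent.Results.MP_b124ce_co.RestrictionH
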